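import Pool.Agent.H27.Tr2

set_option autoImplicit false

namespace Pool.Agent.Results.MP_e51b07_al.No

open Pool.Agent.H27.Tr

/-- the left transversals of `H` that are right transversals of `K` -/
def DT {G : Type*} [Group G] (H K : Subgroup G) : Set (Set G) :=
  {S | (∀ g, ∃! s, s ∈ S ∧ g⁻¹ * s ∈ H) ∧ ∀ g, ∃! s, s ∈ S ∧ s * g⁻¹ ∈ K}

/-- the common transversal probability -/
noncomputable def P {G : Type*} [Group G] (H K : Subgroup G) : ℚ :=
  Nat.card (DT H K) / Nat.card H ^ H.index

/-- the block-diagonal matrix with blocks of size `t i` and entries `1 / t i` -/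
def T {s : ℕ} (t : Fin s → ℕ) : Matrix (Σ i, Fin (t i)) (Σ i, Fin (t i)) ℚ :=
  Matrix.blockDiagonal' fun i => Matrix.of fun _ _ => 1 / (t i : ℚ)

theorem per {s : ℕ} (t : Fin s → ℕ) : (T t).permanent = ∏ i, F (t i) := by
  have := blockperm (Sigma.fst : (Σ i, Fin (t i)) → _) fun i => 1 / (t i : ℚ)
  simp only [Fintype.card_congr (Equiv.sigmaSubtype _), Fintype.card_fin] at this
  rw [show ∏ i, F (t i) = _ from this.symm]
  simp [T, Matrix.permanent, Matrix.blockDiagonal'_apply]
  refine Finset.sum_congr rfl fun σ _ => Finset.prod_congr rfl fun a _ => ?_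
  split_ifs with h
  · rw [h]
  · rfl

theorem result (G : Type*) [Group G] [Finite G] :
    (∀ H K : Subgroup G, Nat.card H = Nat.card K → P H K ≠ (T ![2, 5]).permanent) ∧
      ∀ H : Subgroup G, P H H ≠ (T ![1, 2, 5]).permanent := by
  have h1 : (T ![2, 5]).permanent = 12 / 625 := by
    rw [per]; norm_num [F, Fin.prod_univ_succ, Nat.factorial]
  have h2 : (T ![1, 2, 5]).permanent = 12 / 625 := by
    rw [per]; norm_num [F, Fin.prod_univ_succ, Nat.factorial]
  exact ⟨fun H K h => h1 ▸ main H K h, fun H => h2 ▸ main H H rfl⟩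

end Pool.Agent.Results.MP_e51b07_al.No
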